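import Pool.Agent.R879.PPoset

/-!
# The alternating chain-count congruence for `p`-subgroups, for arbitrary index sets

For every finite group `G` with `p ^ s ∣ |G|` and every nonempty `J ⊆ [0, s]`, the alternating sum
`S_J(G)` of the numbers of chains of `p`-subgroups whose orders are `p ^ (s - c)`, `c ∈ I`,
`∅ ≠ I ⊆ J`, is congruent to `1` modulo `p ^ |J|`.
-/

set_option autoImplicit false

namespace Pool.Agent.Results.MP_3e56e8_al.ChainCongruence

open Finset Subgroup Pointwise Pool.Agent.R879.PPoset Pool.Agent.R879.FrobP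

/-- `N (s - I)`: the number of families `(U c)_{c ∈ I}` of subgroups of `G` with
`|U c| = p ^ (s - c)` and `U d ≤ U c` whenever `c < d`, that is, the number of chains of subgroups
whose orders are the `p ^ (s - c)`, `c ∈ I`. -/
noncomputable def chainCount (G : Type) [Group G] (p s : ℕ) (I : Finset ℕ) : ℕ :=
  Nat.card {U : I → Subgroup G //
    (∀ c : I, Nat.card (U c) = p ^ (s - (c : ℕ))) ∧ ∀ c d : I, (c : ℕ) < (d : ℕ) → U d ≤ U c}

/-- `S_J(G)`: the sum over the nonempty `I ⊆ J` of `(-1) ^ (|I| + 1) N (s - I)`. -/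
noncomputable def chainSum (G : Type) [Group G] (p s : ℕ) (J : Finset ℕ) : ℤ :=
  ∑ I ∈ J.powerset.filter (fun I => I.Nonempty), (-1) ^ (I.card + 1) * (chainCount G p s I : ℤ)

section

variable {G : Type} [Group G] [Finite G]

/-- Chains inside `H`. -/
def Ch (p s : ℕ) (I : Finset ℕ) (H : Subgroup G) : Type :=
  {U : I → Subgroup G // (∀ c : I, U c ≤ H) ∧
    (∀ c : I, Nat.card (U c) = p ^ (s - (c : ℕ))) ∧ ∀ c d : I, (c : ℕ) < (d : ℕ) → U d ≤ U c}

instance (p s : ℕ) (I : Finset ℕ) (H : Subgroup G) : Finite (Ch p s I H) := by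
  unfold Ch; infer_instance

noncomputable def f (p s : ℕ) (J : Finset ℕ) (H : Subgroup G) : ℤ :=
  ∑ I ∈ J.powerset, (-1) ^ (I.card + 1) * (Nat.card (Ch p s I H) : ℤ)

noncomputable def pf (p i : ℕ) (H : Subgroup G) : Finset (Subgroup G) :=
  (Set.toFinite {V : Subgroup G | V ≤ H ∧ Nat.card V = p ^ i}).toFinset

lemma mem_pf {p i : ℕ} {H V : Subgroup G} : V ∈ pf p i H ↔ V ≤ H ∧ Nat.card V = p ^ i := by
  simp [pf]

/-- Adding a largest subgroup to a chain. -/
noncomputable def glue {p s c : ℕ} {I : Finset ℕ} (hc : ∀ d ∈ I, c < d) (H : Subgroup G)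
    (W : (V : {V // V ∈ pf p (s - c) H}) × Ch p s I V.1) : Ch p s (insert c I) H :=
  ⟨fun i => if h : i.1 = c then W.1.1 else W.2.1 ⟨i.1, mem_of_mem_insert_of_ne i.2 h⟩, by
    intro i
    dsimp only
    split_ifs with h
    · exact (mem_pf.mp W.1.2).1
    · exact (W.2.2.1 _).trans (mem_pf.mp W.1.2).1, by
    intro i
    by_cases h : i.1 = c
    · simp only [h, dif_pos]
      exact (mem_pf.mp W.1.2).2
    · simp only [h, dif_neg, not_false_eq_true]
      exact W.2.2.2.1 _, by
    intro i j hij
    by_cases hj : j.1 = c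
    · exfalso
      rcases mem_insert.mp i.2 with h | h
      · omega
      · have := hc _ h; omega
    · by_cases hi : i.1 = c
      · simp only [hi, hj, dif_pos, dif_neg, not_false_eq_true]
        exact W.2.2.1 _
      · simp only [hi, hj, dif_neg, not_false_eq_true]
        exact W.2.2.2.2 _ _ hij⟩

lemma glue_self {p s c : ℕ} {I : Finset ℕ} (hc : ∀ d ∈ I, c < d) (H : Subgroup G)
    (W : (V : {V // V ∈ pf p (s - c) H}) × Ch p s I V.1) :
    (glue hc H W).1 ⟨c, mem_insert_self c I⟩ = W.1.1 := by
  simp [glue]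

lemma glue_of_mem {p s c : ℕ} {I : Finset ℕ} (hc : ∀ d ∈ I, c < d) (H : Subgroup G)
    (W : (V : {V // V ∈ pf p (s - c) H}) × Ch p s I V.1) (i : I) :
    (glue hc H W).1 ⟨i.1, mem_insert_of_mem i.2⟩ = W.2.1 i := by
  have h : i.1 ≠ c := fun h => lt_irrefl c (hc c (h ▸ i.2))
  simp [glue, h]

lemma glue_bijective {p s c : ℕ} {I : Finset ℕ} (hc : ∀ d ∈ I, c < d) (H : Subgroup G) :
    Function.Bijective (glue (p := p) (s := s) hc H) := by
  constructor
  · rintro ⟨V, W⟩ ⟨V', W'⟩ h
    have h1 : V = V' := by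
      apply Subtype.ext
      rw [← glue_self hc H ⟨V, W⟩, h, glue_self]
    subst h1
    have h2 : W = W' := by
      apply Subtype.ext
      funext i
      rw [← glue_of_mem hc H ⟨V, W⟩, h, glue_of_mem]
    rw [h2]
  · intro U
    refine ⟨⟨⟨U.1 ⟨c, mem_insert_self c I⟩, ?_⟩,
      ⟨fun i => U.1 ⟨i.1, mem_insert_of_mem i.2⟩, ?_, ?_, ?_⟩⟩, ?_⟩
    · rw [mem_pf]
      exact ⟨U.2.1 _, U.2.2.1 _⟩
    · intro d
      exact U.2.2.2 _ _ (hc d.1 d.2)
    · intro d
      exact U.2.2.1 _
    · intro d e hde
      exact U.2.2.2 _ _ hde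
    · apply Subtype.ext
      funext i
      by_cases h : i.1 = c
      · have h1 : i = ⟨c, mem_insert_self c I⟩ := Subtype.ext h
        subst h1
        rw [glue_self]
      · have h1 : i = ⟨(⟨i.1, mem_of_mem_insert_of_ne i.2 h⟩ : I).1, i.2⟩ := rfl
        rw [h1]
        exact glue_of_mem hc H _ ⟨i.1, mem_of_mem_insert_of_ne i.2 h⟩

lemma card_ch_insert {p s c : ℕ} {I : Finset ℕ} (hc : ∀ d ∈ I, c < d) (H : Subgroup G) :
    Nat.card (Ch p s (insert c I) H) = ∑ V ∈ pf p (s - c) H, Nat.card (Ch p s I V) := by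
  rw [← Finset.sum_coe_sort (pf p (s - c) H) (fun V => Nat.card (Ch p s I V)), ← Nat.card_sigma]
  exact (Nat.card_eq_of_bijective _ (glue_bijective hc H)).symm

lemma f_empty (p s : ℕ) (H : Subgroup G) : f p s ∅ H = -1 := by
  have h1 : Nat.card (Ch p s ∅ H) = 1 := by
    rw [Nat.card_eq_one_iff_unique]
    constructor
    · exact ⟨fun a b => Subtype.ext (funext fun i => absurd i.2 (notMem_empty _))⟩
    · exact ⟨⟨fun _ => ⊥, fun i => absurd i.2 (notMem_empty _),
        fun i => absurd i.2 (notMem_empty _), fun i => absurd i.2 (notMem_empty _)⟩⟩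
  unfold f
  rw [powerset_empty, sum_singleton, h1]
  simp

lemma f_insert {p s c : ℕ} {J : Finset ℕ} (hc : ∀ d ∈ J, c < d) (H : Subgroup G) :
    f p s (insert c J) H = f p s J H - ∑ V ∈ pf p (s - c) H, f p s J V := by
  classical
  have hcJ : c ∉ J := fun h => lt_irrefl _ (hc c h)
  unfold f
  rw [Finset.sum_powerset_insert hcJ, sub_eq_add_neg]
  congr 1
  rw [Finset.sum_comm, ← Finset.sum_neg_distrib]
  refine Finset.sum_congr rfl fun I hI => ?_
  have hIJ : I ⊆ J := mem_powerset.mp hI
  rw [card_ch_insert (fun d hd => hc d (hIJ hd)), card_insert_of_notMem (fun h => hcJ (hIJ h)),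
    ← Finset.mul_sum, pow_succ]
  push_cast
  ring

lemma pf_subset_pk {p k i : ℕ} (hik : i ≤ k) (H : Subgroup G) : pf p i H ⊆ pk p k H := by
  intro V hV
  rw [mem_pf] at hV
  rw [mem_pk]
  exact ⟨hV.1, hV.2 ▸ pow_dvd_pow p hik⟩

lemma exists_repr {p s k : ℕ} {J : Finset ℕ} (hJ : ∀ c ∈ J, s - c ≤ k) :
    ∃ g : Subgroup G → ℤ, ∀ H : Subgroup G, f p s J H = ∑ V ∈ pk p k H, g V := by
  classical
  induction J using Finset.induction_on_min with
  | empty =>
    refine ⟨fun V => if V = ⊥ then -1 else 0, fun H => ?_⟩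
    rw [f_empty, Finset.sum_ite_eq' (pk p k H) ⊥ (fun _ => (-1 : ℤ)), if_pos]
    rw [mem_pk]
    exact ⟨bot_le, by simp⟩
  | insert c J hc ih =>
    obtain ⟨g, hg⟩ := ih (fun d hd => hJ d (mem_insert_of_mem hd))
    refine ⟨fun V => g V - if Nat.card V = p ^ (s - c) then f p s J V else 0, fun H => ?_⟩
    rw [f_insert hc, Finset.sum_sub_distrib, hg H]
    congr 1
    rw [← Finset.sum_filter]
    refine Finset.sum_congr ?_ fun _ _ => rfl
    ext V
    rw [mem_filter]
    constructor
    · intro h
      exact ⟨pf_subset_pk (hJ c (mem_insert_self c J)) H h, (mem_pf.mp h).2⟩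
    · rintro ⟨h1, h2⟩
      exact mem_pf.mpr ⟨(mem_pk.mp h1).1, h2⟩

lemma f_smul {p s : ℕ} {J : Finset ℕ} (g : ConjAct G) (H : Subgroup G) :
    f p s J (g • H) = f p s J H := by
  classical
  induction J using Finset.induction_on_min generalizing H with
  | empty => rw [f_empty, f_empty]
  | insert c J hc ih =>
    rw [f_insert hc, f_insert hc, ih]
    congr 1
    symm
    refine Finset.sum_bij (fun V _ => g • V) ?_ ?_ ?_ ?_
    · intro V hV
      rw [mem_pf] at hV ⊢
      exact ⟨Subgroup.pointwise_smul_le_pointwise_smul_iff.mpr hV.1, by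
        rw [← hV.2]; exact card_smul g V⟩
    · intro a _ b _ h
      exact MulAction.injective g h
    · intro b hb
      rw [mem_pf] at hb
      refine ⟨g⁻¹ • b, ?_, by simp⟩
      rw [mem_pf]
      have hb2 : g • (g⁻¹ • b) ≤ g • H := by simpa using hb.1
      refine ⟨Subgroup.pointwise_smul_le_pointwise_smul_iff.mp hb2, ?_⟩
      rw [← hb.2]; exact card_smul g⁻¹ b
    · intro V _
      exact (ih V).symm

lemma pf_eq_empty {p i : ℕ} (hp : p.Prime) {H : Subgroup G}
    (h : (Nat.card H).factorization p < i) : pf p i H = ∅ := by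
  rw [Finset.eq_empty_iff_forall_notMem]
  intro V hV
  rw [mem_pf] at hV
  have h1 : p ^ i ∣ Nat.card H := hV.2 ▸ Subgroup.card_dvd_of_le hV.1
  have h2 := (hp.pow_dvd_iff_le_factorization Nat.card_pos.ne').mp h1
  omega

lemma f_trunc {p s : ℕ} (hp : p.Prime) (J : Finset ℕ) (H : Subgroup G) :
    f p s J H = f p s (J.filter fun c => s - c ≤ (Nat.card H).factorization p) H := by
  classical
  induction J using Finset.induction_on_min with
  | empty => simp
  | insert c J hc ih =>
    by_cases h : s - c ≤ (Nat.card H).factorization p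
    · rw [Finset.filter_true_of_mem]
      intro d hd
      rcases mem_insert.mp hd with rfl | hd
      · exact h
      · have := hc d hd; omega
    · rw [f_insert hc, pf_eq_empty hp (by omega), Finset.sum_empty, sub_zero, ih,
        Finset.filter_insert, if_neg h]

/-- The general congruence, for subgroups `H` of `G`. -/
theorem main {p : ℕ} (hp : p.Prime) (s : ℕ) : ∀ (m : ℕ) (J : Finset ℕ), J.card = m →
    (∀ c ∈ J, c ≤ s) → ∀ H : Subgroup G, (∀ c ∈ J, s - c ≤ (Nat.card H).factorization p) →
    ((p : ℤ) ^ J.card) ∣ f p s J H := by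
  classical
  intro m
  induction m using Nat.strong_induction_on with
  | _ m ih =>
  intro J hJm hJs H hJH
  rcases J.eq_empty_or_nonempty with rfl | hne
  · simp
  set c := J.min' hne with hc
  have hcJ : c ∈ J := J.min'_mem hne
  have hmin : ∀ d ∈ J, c ≤ d := fun d hd => J.min'_le d hd
  set J' := J.erase c with hJ'
  have hins : J = insert c J' := (Finset.insert_erase hcJ).symm
  have hlt : ∀ d ∈ J', c < d := by
    intro d hd
    rw [hJ', mem_erase] at hd
    exact lt_of_le_of_ne (hmin d hd.2) (Ne.symm hd.1)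
  set k := s - c with hk
  have hkH : k ≤ (Nat.card H).factorization p := hJH c hcJ
  have hck : ∀ d ∈ J, s - d ≤ k := by
    intro d hd
    have := hmin d hd
    omega
  -- Möbius inversion
  have hinv : f p s J H = ∑ U ∈ pk p k H, mob p k H U * f p s J U := by
    obtain ⟨g, hg⟩ := exists_repr (G := G) (p := p) hck
    have h1 : ∑ U ∈ pk p k H, mob p k H U * f p s J U =
        ∑ U ∈ pk p k H, ∑ V ∈ pk p k H, if V ≤ U then mob p k H U * g V else 0 := by
      refine Finset.sum_congr rfl fun U hU => ?_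
      rw [hg U, Finset.mul_sum, ← Finset.sum_filter]
      refine Finset.sum_congr ?_ fun _ _ => rfl
      ext V
      rw [mem_filter, mem_pk, mem_pk]
      rw [mem_pk] at hU
      constructor
      · rintro ⟨h1, h2⟩; exact ⟨⟨h1.trans hU.1, h2⟩, h1⟩
      · rintro ⟨⟨_, h2⟩, h3⟩; exact ⟨h3, h2⟩
    rw [h1, Finset.sum_comm, hg H]
    refine Finset.sum_congr rfl fun V hV => ?_
    rw [← Finset.sum_filter, ← Finset.sum_mul, mob_isUp p k H V hV, one_mul]
  rw [hinv]
  apply dvd_sum_of_orbits (Γ := HC H)
  · intro g V hV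
    have := (mem_pk_smul (p := p) (k := k) (H := H) (V := V) g.1).mpr hV
    have hgH : g.1 • H = H := smul_eq_of_HC g
    rw [hgH] at this
    exact this
  · intro g V hV
    have hgH : g.1 • H = H := smul_eq_of_HC g
    have h6 := mob_smul (p := p) (k := k) (H := H) (V := V) g.1 hV
    rw [hgH] at h6
    have h8 : mob p k H (g • V) = mob p k H V := h6
    have h9 : f p s J (g • V) = f p s J V := f_smul g.1 V
    rw [h8, h9]
  · intro U hU
    obtain ⟨u, huk, hUc⟩ := (Nat.dvd_prime_pow hp).mp (mem_pk.mp hU).2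
    rcases huk.eq_or_lt with huk | huk
    · -- the top layer
      have h0 : f p s J U = 0 := by
        rw [hins, f_insert hlt]
        have : pf p (s - c) U = {U} := by
          ext V
          rw [mem_pf, mem_singleton, ← hk, ← huk]
          constructor
          · rintro ⟨h1, h2⟩
            exact Subgroup.eq_of_le_of_card_ge h1 (by rw [h2, hUc])
          · rintro rfl
            exact ⟨le_rfl, hUc⟩
        rw [this, Finset.sum_singleton, sub_self]
      rw [h0]; simp
    · have hfac : (Nat.card U).factorization p = u := by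
        rw [hUc, hp.factorization_pow]; simp
      set JU := J.filter (fun d => s - d ≤ u) with hJU
      have hJUc : JU.card < m := by
        rw [← hJm]
        apply Finset.card_lt_card
        refine ⟨filter_subset _ _, fun h => ?_⟩
        have := (mem_filter.mp (h hcJ)).2
        omega
      have h1 : ((p : ℤ) ^ JU.card) ∣ f p s J U := by
        rw [f_trunc hp J U, hfac]
        refine ih _ hJUc JU rfl (fun d hd => hJs d (mem_filter.mp hd).1) U ?_
        intro d hd
        rw [hfac]
        exact (mem_filter.mp hd).2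
      have h2 := claimB hp k _ H U rfl hU
      rw [min_eq_left hkH] at h2
      set o := (Nat.card (MulAction.orbit (HC H) U) : ℤ) with ho
      have h3 : ((p : ℤ) ^ (k - u)) ∣ o * mob p k H U := by
        have h4 : (p : ℤ) ^ k = (p : ℤ) ^ u * (p : ℤ) ^ (k - u) := by
          rw [← pow_add]; congr 1; omega
        have h5 : o * ((Nat.card U : ℤ) * mob p k H U) =
            (p : ℤ) ^ u * (o * mob p k H U) := by
          rw [hUc]; push_cast; ring
        rw [h4, h5] at h2
        exact Int.dvd_of_mul_dvd_mul_left (pow_ne_zero _ (by exact_mod_cast hp.ne_zero)) h2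
      have h4 : J.card ≤ (k - u) + JU.card := by
        have h5 : (J.filter (fun d => ¬ (s - d ≤ u))).card ≤ k - u := by
          have h6 : J.filter (fun d => ¬ (s - d ≤ u)) ⊆ Finset.Ico (s - k) (s - u) := by
            intro d hd
            rw [mem_filter] at hd
            have h7 := hJs d hd.1
            have h8 := hmin d hd.1
            rw [mem_Ico]
            omega
          refine (Finset.card_le_card h6).trans ?_
          rw [Nat.card_Ico]
          have := hJs c hcJ
          omega
        have h6 := Finset.card_filter_add_card_filter_not (s := J) (fun d => s - d ≤ u)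
        rw [← hJU] at h6
        omega
      have h5 : o * (mob p k H U * f p s J U) = (o * mob p k H U) * f p s J U := by ring
      rw [h5]
      refine dvd_trans (pow_dvd_pow _ h4) ?_
      rw [pow_add]
      exact mul_dvd_mul h3 h1

lemma card_ch_top (p s : ℕ) (I : Finset ℕ) :
    Nat.card (Ch p s I (⊤ : Subgroup G)) = chainCount G p s I := by
  unfold chainCount Ch
  exact Nat.card_congr (Equiv.subtypeEquivRight fun U =>
    ⟨fun h => h.2, fun h => ⟨fun _ => le_top, h⟩⟩)

lemma f_top (p s : ℕ) (J : Finset ℕ) : f p s J (⊤ : Subgroup G) = chainSum G p s J - 1 := by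
  classical
  unfold f chainSum
  rw [← Finset.sum_filter_add_sum_filter_not J.powerset (fun I => I.Nonempty), sub_eq_add_neg]
  congr 1
  · exact Finset.sum_congr rfl fun I _ => by rw [card_ch_top]
  · have h1 : J.powerset.filter (fun I => ¬ I.Nonempty) = {∅} := by
      ext I
      simp only [mem_filter, mem_powerset, not_nonempty_iff_eq_empty, mem_singleton]
      constructor
      · exact fun h => h.2
      · rintro rfl; exact ⟨empty_subset _, rfl⟩
    have h2 := f_empty (G := G) p s ⊤
    unfold f at h2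
    rw [powerset_empty] at h2
    rw [h1, h2]

end

/-- For every finite group `G`, every prime `p`, every `s` with `p ^ s ∣ |G|` and every nonempty
`J ⊆ [0, s]`, the alternating chain sum `S_J(G)` is congruent to `1` modulo `p ^ |J|`. -/
theorem result : ∀ (G : Type) [Group G] [Finite G] (p t n : ℕ), p.Prime →
    Nat.card G = p ^ t * n → ¬ p ∣ n → ∀ s : ℕ, s ≤ t → ∀ J : Finset ℕ, J.Nonempty →
    J ⊆ Finset.Icc 0 s → chainSum G p s J ≡ 1 [ZMOD (p : ℤ) ^ J.card] := by
  intro G _ _ p t n hp hG _ s hst J _ hJ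
  have h1 : s ≤ (Nat.card (⊤ : Subgroup G)).factorization p := by
    rw [Subgroup.card_top]
    apply (hp.pow_dvd_iff_le_factorization Nat.card_pos.ne').mp
    rw [hG]
    exact (pow_dvd_pow p hst).mul_right n
  have h2 := main (G := G) hp s _ J rfl (fun c hc => (mem_Icc.mp (hJ hc)).2) ⊤
    (fun c _ => by omega)
  rw [f_top] at h2
  exact (Int.modEq_iff_dvd.mpr (by simpa using h2)).symm

end Pool.Agent.Results.MP_3e56e8_al.ChainCongruence
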